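import Pool.Agent.Q20.SmallAut.Gp

/-!
Automorphisms of `Gp β`.
-/

namespace Q20.SmallAut

open Gp

section

variable {E Z : Type*} [AddCommGroup E] [AddCommGroup Z]

/-- commutator form -/
def φ (β : E →+ E →+ Z) (x y : E) : Z := β x y - β y x

/-- The hypotheses on `β` used for the bound of `Aut (Gp β)`. -/
structure Good (β : E →+ E →+ Z) {ι : Type*} (e : ι → E) : Prop where
  nonempty : Nonempty ι
  nondeg : ∀ x, (∀ i, β x (e i) = β (e i) x) → x = 0
  two_ne : ∀ i, -(e i) ≠ e i
  gen : AddSubgroup.closure (Set.range e) = ⊤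
  genZ : AddSubgroup.closure (Set.range fun p : ι × ι => φ β (e p.1) (e p.2)) = ⊤
  diag : ∀ i, β (e i) (e i) = 0

variable {β : E →+ E →+ Z} {ι : Type*} {e : ι → E}

namespace Good

lemma central (h : Good β e) {g : Gp β} (hg : g ∈ Subgroup.center (Gp β)) :
    g.s = 1 ∧ g.x = 0 := by
  rw [Subgroup.mem_center_iff] at hg
  have key : ∀ i, g.s • e i = e i := by
    intro i
    have := congrArg Gp.x (hg (n β (e i)))
    simp at this
    have h2 : g.x + e i = g.x + g.s • e i := by rw [← this]; abel
    exact (add_left_cancel h2).symm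
  have hs : g.s = 1 := by
    rcases smul_cases g.s with h1 | h1
    · exact h1
    · exfalso
      obtain ⟨i⟩ := h.nonempty
      have := key i
      rw [h1, neg_one_smul'] at this
      exact h.two_ne i this
  refine ⟨hs, h.nondeg _ ?_⟩
  intro i
  have := congrArg Gp.z (hg (n β (e i)))
  simp [hs] at this
  exact this.symm

lemma map_center (α : MulAut (Gp β)) {g : Gp β} (hg : g ∈ Subgroup.center (Gp β)) :
    α g ∈ Subgroup.center (Gp β) := by
  rw [Subgroup.mem_center_iff] at hg ⊢
  intro k
  have := congrArg α (hg (α⁻¹ k))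
  simpa using this

lemma of_map_center (α : MulAut (Gp β)) {g : Gp β} (hg : α g ∈ Subgroup.center (Gp β)) :
    g ∈ Subgroup.center (Gp β) := by
  have := map_center α⁻¹ hg
  simpa using this

end Good

/-- the action on the centre -/
def Y (α : MulAut (Gp β)) (z : Z) : Z := (α (c β z)).z

/-- the action on `E` -/
def A (α : MulAut (Gp β)) (x : E) : E := (α (n β x)).x

/-- the twisting term -/
def ζ (α : MulAut (Gp β)) (x : E) : Z := (α (n β x)).z

namespace Good

lemma map_c (h : Good β e) (α : MulAut (Gp β)) (z : Z) : α (c β z) = c β (Y α z) := by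
  obtain ⟨h1, h2⟩ := h.central (map_center α (c_mem_center z))
  ext
  · simp [h1]
  · simp [h2]
  · rfl

lemma sq_mem_center {g : Gp β} (hg : g.s = -1) : g * g ∈ Subgroup.center (Gp β) := by
  have : g * g = c β (g * g).z := by
    ext
    · simp [hg]
    · simp [hg, neg_one_smul']
    · simp
  rw [this]
  exact c_mem_center _

lemma map_n_basis_s (h : Good β e) (α : MulAut (Gp β)) (i : ι) : (α (n β (e i))).s = 1 := by
  rcases smul_cases (α (n β (e i))).s with h1 | h1
  · exact h1
  · exfalso
    have h2 := sq_mem_center h1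
    rw [← map_mul] at h2
    have h3 := (h.central (of_map_center α h2)).2
    simp at h3
    exact h.two_ne i (neg_eq_of_add_eq_zero_left h3)

lemma map_n_s (h : Good β e) (α : MulAut (Gp β)) (x : E) : (α (n β x)).s = 1 := by
  have hadd : ∀ x y, (α (n β (x + y))).s = (α (n β x)).s * (α (n β y)).s := by
    intro x y
    have := congrArg (fun g => (α g).s) (n_mul_n (β := β) x y)
    simp only [map_mul, mul_s, h.map_c, c_s, one_mul] at this
    exact this.symm
  have hx : x ∈ AddSubgroup.closure (Set.range e) := by rw [h.gen]; trivial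
  induction hx using AddSubgroup.closure_induction with
  | mem x hx =>
    obtain ⟨i, rfl⟩ := hx
    exact h.map_n_basis_s α i
  | zero =>
    have : n β (0 : E) = 1 := by ext <;> simp
    rw [this]; simp
  | add x y _ _ hx hy => rw [hadd, hx, hy, one_mul]
  | neg x _ hx =>
    have h1 := hadd x (-x)
    have h0 : n β (0 : E) = 1 := by ext <;> simp
    rw [add_neg_cancel, h0, hx] at h1
    simpa using h1.symm

lemma map_n (h : Good β e) (α : MulAut (Gp β)) (x : E) :
    α (n β x) = c β (ζ α x) * n β (A α x) := eq_c_mul_n (h.map_n_s α x)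

lemma A_add (h : Good β e) (α : MulAut (Gp β)) (x y : E) : A α (x + y) = A α x + A α y := by
  have := congrArg (fun g => (α g).x) (n_mul_n (β := β) x y)
  simp only [map_mul, mul_x, mul_s, h.map_c, c_s, c_x, one_smul, zero_add, h.map_n_s α x] at this
  exact this.symm

lemma map_of_s (h : Good β e) (α : MulAut (Gp β)) {g : Gp β} (hg : g.s = 1) :
    (α g).x = A α g.x := by
  conv_lhs => rw [eq_c_mul_n hg]
  simp [h.map_c, A]

lemma A_mul (h : Good β e) (α α' : MulAut (Gp β)) (x : E) : A (α * α') x = A α (A α' x) := by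
  have : (α * α') (n β x) = α (α' (n β x)) := rfl
  unfold A
  rw [this]
  exact h.map_of_s α (h.map_n_s α' x)

lemma A_one (x : E) : A (1 : MulAut (Gp β)) x = x := rfl

lemma Y_add (h : Good β e) (α : MulAut (Gp β)) (z w : Z) : Y α (z + w) = Y α z + Y α w := by
  apply c_inj (β := β)
  rw [← h.map_c, ← c_mul_c, map_mul, h.map_c, h.map_c, c_mul_c]

lemma Y_φ (h : Good β e) (α : MulAut (Gp β)) (x y : E) :
    Y α (φ β x y) = φ β (A α x) (A α y) := by
  have h1 : n β x * n β y = c β (φ β x y) * (n β y * n β x) := by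
    rw [n_mul_n, n_mul_n, ← mul_assoc, c_mul_c, add_comm y x]
    simp [φ]
  have h2 := congrArg α h1
  rw [map_mul, map_mul, map_mul, h.map_c, h.map_n, h.map_n] at h2
  have h3 := congrArg Gp.z h2
  simp only [mul_z, mul_x, mul_s, c_s, c_x, c_z, n_s, n_x, n_z, one_smul, map_zero,
    AddMonoidHom.zero_apply, add_zero, zero_add, one_mul] at h3
  unfold φ at h3 ⊢
  have h4 : β (A α x) (A α y) = Y α (β x y - β y x) + β (A α y) (A α x) := by
    have h5 : ζ α x + ζ α y + β (A α x) (A α y) =
      ζ α x + ζ α y + (Y α (β x y - β y x) + β (A α y) (A α x)) := by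
      rw [h3]; abel
    exact add_left_cancel h5
  rw [h4]; abel

lemma closure_eq_top (h : Good β e) :
    Subgroup.closure (insert (σ β) (Set.range fun i => n β (e i))) = ⊤ := by
  set H := Subgroup.closure (insert (σ β) (Set.range fun i => n β (e i))) with hH
  have hσ : σ β ∈ H := Subgroup.subset_closure (Set.mem_insert _ _)
  have hn : ∀ i, n β (e i) ∈ H := fun i =>
    Subgroup.subset_closure (Set.mem_insert_of_mem _ ⟨i, rfl⟩)
  have hc : ∀ z, c β z ∈ H := by
    intro z
    have hz : z ∈ AddSubgroup.closure (Set.range fun p : ι × ι => φ β (e p.1) (e p.2)) := by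
      rw [h.genZ]; trivial
    induction hz using AddSubgroup.closure_induction with
    | mem z hz =>
      obtain ⟨⟨i, j⟩, rfl⟩ := hz
      have h1 : n β (e i) * n β (e j) = c β (φ β (e i) (e j)) * (n β (e j) * n β (e i)) := by
        rw [n_mul_n, n_mul_n, ← mul_assoc, c_mul_c, add_comm (e j) (e i)]
        simp [φ]
      have h2 : c β (φ β (e i) (e j)) =
          n β (e i) * n β (e j) * (n β (e j) * n β (e i))⁻¹ := by
        rw [h1]; group
      show c β (φ β (e i) (e j)) ∈ H
      rw [h2]
      exact H.mul_mem (H.mul_mem (hn i) (hn j)) (H.inv_mem (H.mul_mem (hn j) (hn i)))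
    | zero =>
      have : c β (0 : Z) = 1 := by ext <;> simp
      rw [this]; exact H.one_mem
    | add z w _ _ hz hw => rw [← c_mul_c]; exact H.mul_mem hz hw
    | neg z _ hz =>
      have : c β (-z) = (c β z)⁻¹ := by
        rw [eq_inv_iff_mul_eq_one, c_mul_c]
        ext <;> simp
      rw [this]; exact H.inv_mem hz
  have hnx : ∀ x, n β x ∈ H := by
    intro x
    have hx : x ∈ AddSubgroup.closure (Set.range e) := by rw [h.gen]; trivial
    induction hx using AddSubgroup.closure_induction with
    | mem x hx =>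
      obtain ⟨i, rfl⟩ := hx
      exact hn i
    | zero =>
      have : n β (0 : E) = 1 := by ext <;> simp
      rw [this]; exact H.one_mem
    | add x y _ _ hx hy =>
      have : n β (x + y) = (c β (β x y))⁻¹ * (n β x * n β y) := by
        rw [n_mul_n]; group
      rw [this]
      exact H.mul_mem (H.inv_mem (hc _)) (H.mul_mem hx hy)
    | neg x _ hx =>
      have : n β (-x) = c β (β x (-x)) * (n β x)⁻¹ := by
        rw [eq_mul_inv_iff_mul_eq]
        rw [n_mul_n]
        ext
        · simp
        · simp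
        · simp
      rw [this]
      exact H.mul_mem (hc _) (H.inv_mem hx)
  rw [eq_top_iff]
  intro g _
  rcases smul_cases g.s with h1 | h1
  · rw [eq_c_mul_n h1]; exact H.mul_mem (hc _) (hnx _)
  · rw [eq_mul_σ h1]; exact H.mul_mem (H.mul_mem (hc _) (hnx _)) hσ

lemma aut_ext (h : Good β e) {α α' : MulAut (Gp β)} (h1 : α (σ β) = α' (σ β))
    (h2 : ∀ i, α (n β (e i)) = α' (n β (e i))) : α = α' := by
  have h3 : Set.EqOn α.toMonoidHom α'.toMonoidHom
      (insert (σ β) (Set.range fun i => n β (e i))) := by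
    rintro g (rfl | ⟨i, rfl⟩)
    · exact h1
    · exact h2 i
  have h4 := MonoidHom.eqOn_closure h3
  rw [h.closure_eq_top] at h4
  ext1 g
  exact h4 (Subgroup.mem_top g)

lemma two_w (α : MulAut (Gp β)) (hs : (α (σ β)).s = -1) :
    2 • (α (σ β)).z = β (α (σ β)).x (α (σ β)).x := by
  have h1 : σ β * σ β = 1 := by ext <;> simp
  have h2 := congrArg (fun g => (α g).z) h1
  simp only [map_mul, mul_z, hs, neg_one_smul', map_neg, map_one, one_z] at h2
  rw [two_nsmul]
  exact sub_eq_zero.mp (by rw [sub_eq_add_neg]; exact h2)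

lemma map_σ_s (h : Good β e) (α : MulAut (Gp β)) : (α (σ β)).s = -1 := by
  rcases smul_cases (α (σ β)).s with h1 | h1
  · exfalso
    -- then everything maps into the subgroup `s = 1`
    have h3 : ∀ g, (α g).s = 1 := by
      intro g
      rcases smul_cases g.s with h2 | h2
      · rw [eq_c_mul_n h2]; simp [h.map_c, h.map_n_s]
      · rw [eq_mul_σ h2]; simp [h.map_c, h.map_n_s, h1]
    have h4 := h3 (α⁻¹ (σ β))
    rw [MulAut.apply_inv_self] at h4
    simp at h4
  · exact h1

lemma two_ζ (h : Good β e) (α : MulAut (Gp β)) (i : ι) :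
    2 • ζ α (e i) = β (A α (e i)) (A α (e i)) - φ β (A α (e i)) (α (σ β)).x := by
  have h1 : n β (e i) * σ β * n β (e i) = σ β := by
    ext <;> simp [neg_one_smul', h.diag]
  have h2 := congrArg (fun g => (α g).z) h1
  simp only [map_mul] at h2
  rw [h.map_n] at h2
  have hs := h.map_σ_s α
  simp only [mul_z, mul_x, mul_s, c_s, c_x, c_z, n_s, n_x, n_z, one_smul, map_zero,
    AddMonoidHom.zero_apply, add_zero, zero_add, one_mul, hs, neg_one_smul', map_neg,
    map_add, AddMonoidHom.add_apply] at h2
  unfold φ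
  rw [two_nsmul]
  have h3 : ζ α (e i) + ζ α (e i) - (β (A α (e i)) (A α (e i)) -
      (β (A α (e i)) (α (σ β)).x - β (α (σ β)).x (A α (e i)))) = 0 := by
    have h4 := sub_eq_zero.mpr h2
    rw [← h4]; abel
  exact sub_eq_zero.mp h3

end Good

end

end Q20.SmallAut
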