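import Pool.Agent.Q20.SmallAut.Aut

/-!
The bound for the number of automorphisms of `Gp β`.
-/

namespace Q20.SmallAut

open Gp

lemma card_le_mul {α β γ : Type*} [Finite α] [Finite γ] (f : α → β) (g : α → α → γ)
    (h : ∀ a0 a a', f a = f a0 → f a' = f a0 → g a0 a = g a0 a' → a = a') :
    Nat.card α ≤ Nat.card (Set.range f) * Nat.card γ := by
  classical
  let b : Set.range f → α := fun v => v.2.choose
  have hb : ∀ v : Set.range f, f (b v) = v := fun v => v.2.choose_spec
  let F : α → Set.range f × γ := fun a => (⟨f a, a, rfl⟩, g (b ⟨f a, a, rfl⟩) a)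
  have hF : Function.Injective F := by
    intro a a' haa
    have h1 : f a = f a' := congrArg (fun p : Set.range f × γ => (p.1 : β)) haa
    have h2 : g (b ⟨f a, a, rfl⟩) a = g (b ⟨f a', a', rfl⟩) a' :=
      congrArg (fun p : Set.range f × γ => p.2) haa
    have h3 : (⟨f a, a, rfl⟩ : Set.range f) = ⟨f a', a', rfl⟩ := Subtype.ext h1
    rw [← h3] at h2
    refine h (b ⟨f a, a, rfl⟩) a a' (hb ⟨f a, a, rfl⟩).symm ?_ h2
    rw [← h1]
    exact (hb ⟨f a, a, rfl⟩).symm
  have hfin : Finite (Set.range f) := Set.finite_range f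
  rw [← Nat.card_prod]
  exact Nat.card_le_card_of_injective F hF

variable {E Z : Type*} [AddCommGroup E] [AddCommGroup Z]

open Classical in
/-- truncation to the 2-torsion -/
noncomputable def toT (z : Z) : {z : Z // 2 • z = 0} :=
  if h : 2 • z = 0 then ⟨z, h⟩ else ⟨0, by simp⟩

lemma toT_eq {z : Z} (h : 2 • z = 0) : ((toT z : {z : Z // 2 • z = 0}) : Z) = z := by
  unfold toT; rw [dif_pos h]

variable {β : E →+ E →+ Z} {ι : Type*} {e : ι → E}

/-- The tuple of images of the basis. -/
def tup (e : ι → E) (α : MulAut (Gp β)) : ι → E := fun i => A α (e i)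

theorem Good.card_aut_le [Finite E] [Finite Z] [Finite ι] (h : Good β e) :
    Nat.card (MulAut (Gp β)) ≤
      (Nat.card (Set.range (tup (β := β) e)) * Nat.card E) *
        (Nat.card {z : Z // 2 • z = 0}) ^ (Nat.card ι + 1) := by
  classical
  have hfinA : Finite (MulAut (Gp β)) := inferInstance
  let f : MulAut (Gp β) → (ι → E) × E := fun α => (tup e α, (α (σ β)).x)
  let g : MulAut (Gp β) → MulAut (Gp β) → ({z : Z // 2 • z = 0} × (ι → {z : Z // 2 • z = 0})) :=
    fun α0 α => (toT ((α (σ β)).z - (α0 (σ β)).z), fun i => toT (ζ α (e i) - ζ α0 (e i)))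
  have key := card_le_mul f g ?_
  · refine key.trans ?_
    have h1 : Nat.card (Set.range f) ≤ Nat.card (Set.range (tup (β := β) e)) * Nat.card E := by
      rw [← Nat.card_prod]
      have hfin1 : Finite (Set.range (tup (β := β) e)) := Set.finite_range _
      refine Nat.card_le_card_of_injective
        (fun v : Set.range f => ((⟨v.1.1, by
          obtain ⟨a, ha⟩ := v.2
          exact ⟨a, by rw [← ha]⟩⟩, v.1.2) : Set.range (tup (β := β) e) × E)) ?_
      intro v v' hvv
      have h1 := congrArg (fun p : Set.range (tup (β := β) e) × E => (p.1 : ι → E)) hvv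
      have h2 := congrArg (fun p : Set.range (tup (β := β) e) × E => p.2) hvv
      exact Subtype.ext (Prod.ext h1 h2)
    have h2 : Nat.card ({z : Z // 2 • z = 0} × (ι → {z : Z // 2 • z = 0})) =
        (Nat.card {z : Z // 2 • z = 0}) ^ (Nat.card ι + 1) := by
      rw [Nat.card_prod, Nat.card_fun, pow_succ, mul_comm]
    rw [h2]
    exact Nat.mul_le_mul_right _ h1
  · intro α0 α α' h1 h2 h3
    have hA : ∀ i, A α (e i) = A α0 (e i) := fun i => congrFun (congrArg Prod.fst h1) i
    have hA' : ∀ i, A α' (e i) = A α0 (e i) := fun i => congrFun (congrArg Prod.fst h2) i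
    have hx : (α (σ β)).x = (α0 (σ β)).x := congrArg Prod.snd h1
    have hx' : (α' (σ β)).x = (α0 (σ β)).x := congrArg Prod.snd h2
    have hs := h.map_σ_s α
    have hs' := h.map_σ_s α'
    have hs0 := h.map_σ_s α0
    have hw : 2 • ((α (σ β)).z - (α0 (σ β)).z) = 0 := by
      rw [smul_sub, two_w α hs, two_w α0 hs0, hx, sub_self]
    have hw' : 2 • ((α' (σ β)).z - (α0 (σ β)).z) = 0 := by
      rw [smul_sub, two_w α' hs', two_w α0 hs0, hx', sub_self]
    have hz : ∀ i, 2 • (ζ α (e i) - ζ α0 (e i)) = 0 := by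
      intro i
      rw [smul_sub, h.two_ζ, h.two_ζ, hA, hx, sub_self]
    have hz' : ∀ i, 2 • (ζ α' (e i) - ζ α0 (e i)) = 0 := by
      intro i
      rw [smul_sub, h.two_ζ, h.two_ζ, hA', hx', sub_self]
    have e1 : (α (σ β)).z = (α' (σ β)).z := by
      have h4 := congrArg (fun p => ((p.1 : {z : Z // 2 • z = 0}) : Z)) h3
      change ((toT ((α (σ β)).z - (α0 (σ β)).z) : {z : Z // 2 • z = 0}) : Z) =
        ((toT ((α' (σ β)).z - (α0 (σ β)).z) : {z : Z // 2 • z = 0}) : Z) at h4
      rw [toT_eq hw, toT_eq hw'] at h4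
      exact sub_left_injective h4
    have e2 : ∀ i, ζ α (e i) = ζ α' (e i) := by
      intro i
      have h4 := congrArg (fun p => ((p.2 i : {z : Z // 2 • z = 0}) : Z)) h3
      change ((toT (ζ α (e i) - ζ α0 (e i)) : {z : Z // 2 • z = 0}) : Z) =
        ((toT (ζ α' (e i) - ζ α0 (e i)) : {z : Z // 2 • z = 0}) : Z) at h4
      rw [toT_eq (hz i), toT_eq (hz' i)] at h4
      exact sub_left_injective h4
    refine h.aut_ext ?_ ?_
    · ext
      · rw [hs, hs']
      · rw [hx, hx']
      · exact e1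
    · intro i
      rw [h.map_n, h.map_n, e2, hA, hA']

end Q20.SmallAut
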