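import Pool.Agent.Q20.SmallAut.Bound

/-!
The concrete form.
-/

namespace Q20.SmallAut

open Gp Matrix

section

variable {s : ℕ} {R : Type} [CommRing R]

/-- index set -/
abbrev I (s : ℕ) := Fin s ⊕ Fin s

/-- a numbering of the index set -/
def rk : I s → ℕ := Sum.elim (fun i => (i : ℕ)) (fun j => s + j)

lemma rk_inj {i j : I s} (h : rk i = rk j) : i = j := by
  rcases i with i | i <;> rcases j with j | j <;> simp [rk] at h
  · exact congrArg _ (Fin.ext h)
  · exfalso; have := i.2; omega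
  · exfalso; have := j.2; omega
  · exact congrArg _ (Fin.ext h)

/-- shift matrix -/
def D (s : ℕ) (R : Type) [CommRing R] : Matrix (Fin s) (Fin s) R :=
  Matrix.of fun i j => if (j : ℕ) = i + 1 then 1 else 0

/-- first relation -/
def B1 (s : ℕ) (R : Type) [CommRing R] : Matrix (I s) (I s) R := fromBlocks 0 1 0 0

/-- second relation -/
def B2 (s : ℕ) (R : Type) [CommRing R] : Matrix (I s) (I s) R := fromBlocks 0 (D s R) 0 0

/-- The subgroup factored out. -/
def U (s : ℕ) (R : Type) [CommRing R] : AddSubgroup (Matrix (I s) (I s) R) where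
  carrier := {M | ∃ c0 c1 : R, (M - c0 • B1 s R - c1 • B2 s R)ᵀ = M - c0 • B1 s R - c1 • B2 s R}
  zero_mem' := ⟨0, 0, by simp⟩
  add_mem' := by
    rintro M N ⟨c0, c1, h⟩ ⟨d0, d1, h'⟩
    refine ⟨c0 + d0, c1 + d1, ?_⟩
    have : M + N - (c0 + d0) • B1 s R - (c1 + d1) • B2 s R =
        (M - c0 • B1 s R - c1 • B2 s R) + (N - d0 • B1 s R - d1 • B2 s R) := by
      rw [add_smul, add_smul]; abel
    rw [this, transpose_add, h, h']
  neg_mem' := by
    rintro M ⟨c0, c1, h⟩
    refine ⟨-c0, -c1, ?_⟩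
    have : -M - (-c0) • B1 s R - (-c1) • B2 s R = -(M - c0 • B1 s R - c1 • B2 s R) := by
      rw [neg_smul, neg_smul]; abel
    rw [this, transpose_neg, h]

lemma mem_U {M : Matrix (I s) (I s) R} : M ∈ U s R ↔
    ∃ c0 c1 : R, (M - c0 • B1 s R - c1 • B2 s R)ᵀ = M - c0 • B1 s R - c1 • B2 s R := Iff.rfl

/-- the centre -/
abbrev ZZ (s : ℕ) (R : Type) [CommRing R] := Matrix (I s) (I s) R ⧸ U s R

/-- quotient map -/
def mk (M : Matrix (I s) (I s) R) : ZZ s R := QuotientAddGroup.mk M

lemma mk_add (M N : Matrix (I s) (I s) R) : mk (M + N) = mk M + mk N := rfl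
lemma mk_sub (M N : Matrix (I s) (I s) R) : mk (M - N) = mk M - mk N := rfl
lemma mk_zero : mk (0 : Matrix (I s) (I s) R) = 0 := rfl
lemma mk_surj (z : ZZ s R) : ∃ M, mk M = z := QuotientAddGroup.mk_surjective z

lemma mk_eq_zero {M : Matrix (I s) (I s) R} : mk M = 0 ↔ M ∈ U s R :=
  QuotientAddGroup.eq_zero_iff M

lemma mk_eq {M N : Matrix (I s) (I s) R} : mk M = mk N ↔ M - N ∈ U s R := by
  rw [← mk_eq_zero, mk_sub, sub_eq_zero]

lemma mem_U_of_symm {M : Matrix (I s) (I s) R} (h : Mᵀ = M) : M ∈ U s R :=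
  ⟨0, 0, by simpa using h⟩

/-- upper triangular part of the product -/
def up (x y : I s → R) : Matrix (I s) (I s) R :=
  Matrix.of fun i j => if rk i < rk j then x i * y j else 0

lemma up_add_left (x x' y : I s → R) : up (x + x') y = up x y + up x' y := by
  ext i j
  simp only [up, Matrix.of_apply, Matrix.add_apply, Pi.add_apply]
  split_ifs
  · ring
  · simp

lemma up_add_right (x y y' : I s → R) : up x (y + y') = up x y + up x y' := by
  ext i j
  simp only [up, Matrix.of_apply, Matrix.add_apply, Pi.add_apply]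
  split_ifs
  · ring
  · simp

/-- the biadditive map -/
def bet (s : ℕ) (R : Type) [CommRing R] : (I s → R) →+ (I s → R) →+ ZZ s R :=
  AddMonoidHom.mk' (fun x => AddMonoidHom.mk' (fun y => mk (up x y))
    (fun y y' => by rw [up_add_right, mk_add]))
    (fun x x' => by
      refine AddMonoidHom.ext fun y => ?_
      show mk (up (x + x') y) = mk (up x y) + mk (up x' y)
      rw [up_add_left, mk_add])

lemma bet_apply (x y : I s → R) : bet s R x y = mk (up x y) := rfl

lemma φ_bet (x y : I s → R) : φ (bet s R) x y = mk (vecMulVec x y) := by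
  unfold φ
  rw [bet_apply, bet_apply, ← mk_sub, mk_eq]
  apply mem_U_of_symm
  ext i j
  simp only [transpose_apply, Matrix.sub_apply, up, Matrix.of_apply, vecMulVec_apply]
  rcases lt_trichotomy (rk i) (rk j) with h | h | h
  · rw [if_pos h, if_neg (not_lt.mpr h.le), if_neg (not_lt.mpr h.le), if_pos h]; ring
  · have := rk_inj h
    subst this
    simp
  · rw [if_pos h, if_neg (not_lt.mpr h.le), if_neg (not_lt.mpr h.le), if_pos h]; ring

/-- basis vectors -/
def ee (i : I s) : I s → R := Pi.single i 1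

lemma ee_self (i : I s) : (ee i : I s → R) i = 1 := by simp [ee]
lemma ee_ne {i j : I s} (h : j ≠ i) : (ee i : I s → R) j = 0 := by simp [ee, h]

/-- evaluation of the symmetric condition -/
lemma vecMulVec_ee_mem_U (hs : 3 ≤ s) {x : I s → R}
    (hx : ∀ l, vecMulVec x (ee l) ∈ U s R) : x = 0 := by
  have key : ∀ l : I s, (∃ i : Fin s, Sum.inl i ≠ l ∧ Sum.inr i ≠ l) →
      (∃ i j : Fin s, (j : ℕ) = i + 1 ∧ Sum.inl i ≠ l ∧ Sum.inr j ≠ l) →
      ∀ a, a ≠ l → x a = 0 := by
    rintro l ⟨i, hi1, hi2⟩ ⟨i', j', hij, hi1', hj2'⟩ a ha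
    obtain ⟨c0, c1, h⟩ := hx l
    have hc0 : c0 = 0 := by
      have h1 := congrFun (congrFun h (Sum.inl i)) (Sum.inr i)
      simp [vecMulVec_apply, B1, B2, D, ee_ne hi1, ee_ne hi2] at h1
      exact h1
    have hc1 : c1 = 0 := by
      have h1 := congrFun (congrFun h (Sum.inl i')) (Sum.inr j')
      simp [vecMulVec_apply, B1, B2, D, ee_ne hi1', ee_ne hj2', hc0, hij] at h1
      exact h1
    have h1 := congrFun (congrFun h l) a
    simp [vecMulVec_apply, hc0, hc1, ee_self, ee_ne ha] at h1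
    exact h1
  have k1 := key (Sum.inl ⟨0, by omega⟩) ⟨⟨1, by omega⟩, by simp, by simp⟩
    ⟨⟨1, by omega⟩, ⟨2, by omega⟩, by simp, by simp, by simp⟩
  have k2 := key (Sum.inr ⟨0, by omega⟩) ⟨⟨1, by omega⟩, by simp, by simp⟩
    ⟨⟨1, by omega⟩, ⟨2, by omega⟩, by simp, by simp, by simp⟩
  ext a
  by_cases ha : a = Sum.inl ⟨0, by omega⟩
  · exact k2 a (by rw [ha]; simp)
  · exact k1 a ha

end

section

variable {s m : ℕ}

lemma closure_basis_vec {n : ℕ} {ι : Type} [Fintype ι] [DecidableEq ι]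
    (H : AddSubgroup (ι → ZMod n))
    (h : ∀ i, (Pi.single i 1 : ι → ZMod n) ∈ H) : H = ⊤ := by
  rw [eq_top_iff]
  intro x _
  have hx : x = ∑ i, x i • (Pi.single i 1 : ι → ZMod n) := by
    ext j
    simp [Finset.sum_apply, Pi.single_apply]
  rw [hx]
  refine sum_mem fun i _ => ?_
  have : AddSubgroup.toZModSubmodule n H = AddSubgroup.toZModSubmodule n H := rfl
  exact (AddSubgroup.toZModSubmodule n H).smul_mem (x i) (h i)

lemma good (hs : 3 ≤ s) (hm : 2 ≤ m) :
    Good (bet s (ZMod (2 ^ m))) (ee : I s → I s → ZMod (2 ^ m)) := by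
  have hfact : Fact (2 < 2 ^ m) := ⟨by
    calc 2 < 2 ^ 2 := by norm_num
      _ ≤ 2 ^ m := Nat.pow_le_pow_right (by norm_num) hm⟩
  refine ⟨⟨Sum.inl ⟨0, by omega⟩⟩, ?_, ?_, ?_, ?_, ?_⟩
  · intro x hx
    apply vecMulVec_ee_mem_U hs
    intro l
    rw [← mk_eq_zero, ← φ_bet]
    unfold φ
    rw [hx l, sub_self]
  · intro i h
    have := congrFun h i
    rw [Pi.neg_apply, ee_self] at this
    exact ZMod.neg_one_ne_one this
  · exact closure_basis_vec _ (fun i => AddSubgroup.subset_closure ⟨i, rfl⟩)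
  · rw [eq_top_iff]
    intro z _
    obtain ⟨M, rfl⟩ := mk_surj z
    set H := AddSubgroup.closure (Set.range fun p : I s × I s =>
      φ (bet s (ZMod (2 ^ m))) (ee p.1) (ee p.2)) with hH
    let π : Matrix (I s) (I s) (ZMod (2 ^ m)) →+ ZZ s (ZMod (2 ^ m)) := QuotientAddGroup.mk' _
    have h1 : ∀ i j, (Matrix.single i j (1 : ZMod (2 ^ m))) ∈ H.comap π := by
      intro i j
      rw [AddSubgroup.mem_comap]
      have h2 : π (Matrix.single i j (1 : ZMod (2 ^ m))) =
          φ (bet s (ZMod (2 ^ m))) (ee i) (ee j) := by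
        rw [φ_bet]
        show mk _ = mk _
        congr 1
        ext a b
        simp only [vecMulVec_apply, ee, Matrix.single_apply, Pi.single_apply]
        by_cases ha : a = i
        · subst ha
          by_cases hb : b = j
          · subst hb; simp
          · simp [hb, Ne.symm hb]
        · simp [ha, Ne.symm ha]
      rw [h2]
      exact AddSubgroup.subset_closure ⟨(i, j), rfl⟩
    have h3 : M ∈ AddSubgroup.toZModSubmodule (2 ^ m) (H.comap π) := by
      rw [Matrix.matrix_eq_sum_single M]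
      refine sum_mem fun i _ => sum_mem fun j _ => ?_
      have h4 : Matrix.single i j (M i j) = (M i j) • Matrix.single i j (1 : ZMod (2 ^ m)) := by
        rw [Matrix.smul_single, smul_eq_mul, mul_one]
      rw [h4]
      exact Submodule.smul_mem _ _ (h1 i j)
    exact h3
  · intro i
    rw [bet_apply]
    have : up (ee i) (ee i) = (0 : Matrix (I s) (I s) (ZMod (2 ^ m))) := by
      ext a b
      simp only [up, Matrix.of_apply, Matrix.zero_apply]
      split_ifs with hab
      · by_cases ha : a = i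
        · by_cases hb : b = i
          · subst ha; subst hb; exact absurd hab (lt_irrefl _)
          · rw [ee_ne hb, mul_zero]
        · rw [ee_ne ha, zero_mul]
      · rfl
    rw [this, mk_zero]

end

end Q20.SmallAut
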