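import Pool.Agent.Q20.SmallAut.Mat

/-!
Cardinalities.
-/

namespace Q20.SmallAut

open Gp Matrix

section

variable {s m : ℕ}

instance finiteZZ : Finite (ZZ s (ZMod (2 ^ m))) := by
  have hne : NeZero (2 ^ m) := inferInstance
  unfold ZZ
  infer_instance

/-- lower bound for the centre -/
lemma card_ZZ_ge (s m : ℕ) :
    (2 ^ m) ^ (s * s) ≤ Nat.card (ZZ s (ZMod (2 ^ m))) * (2 ^ m) ^ 2 := by
  classical
  have hne : NeZero (2 ^ m) := inferInstance
  let f : Matrix (Fin s) (Fin s) (ZMod (2 ^ m)) → ZZ s (ZMod (2 ^ m)) :=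
    fun B => mk (fromBlocks 0 B 0 0)
  let P : Matrix (Fin s) (Fin s) (ZMod (2 ^ m)) → Matrix (Fin s) (Fin s) (ZMod (2 ^ m)) →
      ZMod (2 ^ m) × ZMod (2 ^ m) → Prop := fun B0 B c =>
    B - B0 = c.1 • (1 : Matrix (Fin s) (Fin s) (ZMod (2 ^ m))) + c.2 • D s (ZMod (2 ^ m))
  let g : Matrix (Fin s) (Fin s) (ZMod (2 ^ m)) → Matrix (Fin s) (Fin s) (ZMod (2 ^ m)) →
      ZMod (2 ^ m) × ZMod (2 ^ m) := fun B0 B =>
    if h : ∃ c, P B0 B c then h.choose else (0, 0)
  have hP : ∀ B0 B, f B = f B0 → ∃ c, P B0 B c := by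
    intro B0 B h
    have h1 : fromBlocks 0 B 0 0 - fromBlocks 0 B0 0 0 ∈ U s (ZMod (2 ^ m)) := mk_eq.mp h
    obtain ⟨c0, c1, h2⟩ := h1
    refine ⟨(c0, c1), ?_⟩
    show B - B0 = c0 • (1 : Matrix (Fin s) (Fin s) (ZMod (2 ^ m))) + c1 • D s (ZMod (2 ^ m))
    ext i j
    have h3 := congrFun (congrFun h2 (Sum.inl i)) (Sum.inr j)
    simp [B1, B2] at h3
    simp only [Matrix.sub_apply, Matrix.add_apply, Matrix.smul_apply, smul_eq_mul]
    linear_combination -h3
  have key := card_le_mul f g ?_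
  · have h1 : Nat.card (Matrix (Fin s) (Fin s) (ZMod (2 ^ m))) = (2 ^ m) ^ (s * s) := by
      have : Nat.card (Fin s → Fin s → ZMod (2 ^ m)) = (2 ^ m) ^ (s * s) := by
        rw [Nat.card_fun, Nat.card_fun, Nat.card_zmod, Nat.card_fin, ← pow_mul]
      exact this
    have h2 : Nat.card (Set.range f) ≤ Nat.card (ZZ s (ZMod (2 ^ m))) :=
      Nat.card_le_card_of_injective _ Subtype.val_injective
    have h3 : Nat.card (ZMod (2 ^ m) × ZMod (2 ^ m)) = (2 ^ m) ^ 2 := by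
      rw [Nat.card_prod, Nat.card_zmod]; ring
    rw [h1, h3] at key
    exact key.trans (Nat.mul_le_mul_right _ h2)
  · intro B0 B B' h1 h2 h3
    have e1 := hP B0 B h1
    have e2 := hP B0 B' h2
    have g1 : P B0 B (g B0 B) := by
      have : g B0 B = e1.choose := dif_pos e1
      rw [this]; exact e1.choose_spec
    have g2 : P B0 B' (g B0 B') := by
      have : g B0 B' = e2.choose := dif_pos e2
      rw [this]; exact e2.choose_spec
    rw [← h3] at g2
    have : B - B0 = B' - B0 := g1.trans g2.symm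
    exact sub_left_injective this

/-- upper bound for the 2-torsion of the centre -/
lemma card_torsion_le (s m : ℕ) :
    Nat.card {z : ZZ s (ZMod (2 ^ m)) // 2 • z = 0} ≤ 2 ^ (2 * s * (2 * s)) := by
  classical
  have hne : NeZero (2 ^ m) := inferInstance
  -- doubling map
  let d : ZZ s (ZMod (2 ^ m)) →+ ZZ s (ZMod (2 ^ m)) := nsmulAddMonoidHom 2
  have h1 : Nat.card {z : ZZ s (ZMod (2 ^ m)) // 2 • z = 0} = Nat.card d.ker := rfl
  have h2 : Nat.card d.ker * Nat.card d.range = Nat.card (ZZ s (ZMod (2 ^ m))) := by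
    rw [← AddSubgroup.index_ker, AddSubgroup.card_mul_index]
  have h3 : d.range.index * Nat.card d.range = Nat.card (ZZ s (ZMod (2 ^ m))) :=
    AddSubgroup.index_mul_card _
  have hpos : 0 < Nat.card d.range := Nat.card_pos
  have h4 : Nat.card d.ker = d.range.index := by
    have := h2.trans h3.symm
    exact Nat.eq_of_mul_eq_mul_right hpos this
  rw [h1, h4, AddSubgroup.index]
  -- representatives
  let r : (I s → I s → Fin 2) → ZZ s (ZMod (2 ^ m)) ⧸ d.range := fun b =>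
    QuotientAddGroup.mk (mk (Matrix.of fun i j => (((b i j : Fin 2) : ℕ) : ZMod (2 ^ m))))
  have hr : Function.Surjective r := by
    intro q
    obtain ⟨z, rfl⟩ := QuotientAddGroup.mk_surjective q
    obtain ⟨M, rfl⟩ := mk_surj z
    refine ⟨fun i j => ⟨(M i j).val % 2, Nat.mod_lt _ (by norm_num)⟩, ?_⟩
    show QuotientAddGroup.mk _ = QuotientAddGroup.mk _
    rw [QuotientAddGroup.eq]
    refine ⟨mk (Matrix.of fun i j => (((M i j).val / 2 : ℕ) : ZMod (2 ^ m))), ?_⟩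
    show 2 • mk (Matrix.of fun i j => (((M i j).val / 2 : ℕ) : ZMod (2 ^ m))) =
      - mk (Matrix.of fun i j => (((M i j).val % 2 : ℕ) : ZMod (2 ^ m))) + mk M
    rw [two_nsmul, ← mk_add, neg_add_eq_sub, ← mk_sub]
    congr 1
    ext i j
    simp only [Matrix.add_apply, Matrix.sub_apply, Matrix.of_apply]
    have h5 : ((M i j).val : ZMod (2 ^ m)) = M i j := ZMod.natCast_zmod_val _
    have h6 : (M i j).val = (M i j).val / 2 + (M i j).val / 2 + (M i j).val % 2 := by omega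
    have h7 := congrArg (Nat.cast (R := ZMod (2 ^ m))) h6
    rw [h5] at h7
    push_cast at h7
    linear_combination -h7
  calc Nat.card (ZZ s (ZMod (2 ^ m)) ⧸ d.range) ≤ Nat.card (I s → I s → Fin 2) :=
        Nat.card_le_card_of_surjective r hr
    _ = 2 ^ (2 * s * (2 * s)) := by
        rw [Nat.card_fun, Nat.card_fun, Nat.card_sum, Nat.card_fin, Nat.card_fin, ← pow_mul,
          two_mul]

/-- `Gp` is a 2-group -/
lemma isPGroup_Gp (s m : ℕ) : IsPGroup 2 (Gp (bet s (ZMod (2 ^ m)))) := by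
  have hne : NeZero (2 ^ m) := inferInstance
  have hfact : Fact (Nat.Prime 2) := ⟨Nat.prime_two⟩
  have h1 : Nat.card (Matrix (I s) (I s) (ZMod (2 ^ m))) = 2 ^ (m * (2 * s * (2 * s))) := by
    have : Nat.card (I s → I s → ZMod (2 ^ m)) = 2 ^ (m * (2 * s * (2 * s))) := by
      rw [Nat.card_fun, Nat.card_fun, Nat.card_zmod, Nat.card_sum, Nat.card_fin, ← pow_mul,
        ← pow_mul, two_mul]
    exact this
  have h2 : Nat.card (ZZ s (ZMod (2 ^ m))) ∣ 2 ^ (m * (2 * s * (2 * s))) := by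
    rw [← h1]
    exact AddSubgroup.card_quotient_dvd_card _
  obtain ⟨t, _, ht⟩ := (Nat.dvd_prime_pow Nat.prime_two).mp h2
  apply IsPGroup.of_card (n := 1 + (m * (2 * s)) + t)
  rw [card_eq, ht, Nat.card_fun, Nat.card_zmod, Nat.card_sum, Nat.card_fin, pow_add, pow_add,
    ← pow_mul, two_mul s]
  ring

theorem card_aut_le (hs : 3 ≤ s) (hm : 2 ≤ m) :
    Nat.card (MulAut (Gp (bet s (ZMod (2 ^ m))))) ≤
      2 ^ (m * (6 * s + 4) + (2 * s * (2 * s)) * (2 * s + 1)) := by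
  have hne : NeZero (2 ^ m) := inferInstance
  have h := (good hs hm).card_aut_le
  have h1 := card_tup_le hs hm
  have h2 := card_torsion_le s m
  have h3 : Nat.card (I s → ZMod (2 ^ m)) = (2 ^ m) ^ (2 * s) := by
    rw [Nat.card_fun, Nat.card_zmod, Nat.card_sum, Nat.card_fin, two_mul]
  have h4 : Nat.card (I s) = 2 * s := by rw [Nat.card_sum, Nat.card_fin, two_mul]
  rw [h3, h4] at h
  calc Nat.card (MulAut (Gp (bet s (ZMod (2 ^ m))))) ≤ _ := h
    _ ≤ ((2 ^ m) ^ 4 * ((2 ^ m) ^ (2 * s)) ^ 2 * (2 ^ m) ^ (2 * s)) *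
        (2 ^ (2 * s * (2 * s))) ^ (2 * s + 1) := by gcongr
    _ = 2 ^ (m * (6 * s + 4) + (2 * s * (2 * s)) * (2 * s + 1)) := by
      rw [← pow_mul, ← pow_mul, ← pow_mul, ← pow_mul, ← pow_mul, ← pow_add, ← pow_add, ← pow_add]
      congr 1
      ring

theorem card_ge (s m : ℕ) :
    2 ^ (m * (s * s + 2 * s) + 1) ≤ Nat.card (Gp (bet s (ZMod (2 ^ m)))) * 2 ^ (2 * m) := by
  have h := card_ZZ_ge s m
  rw [card_eq, Nat.card_fun, Nat.card_zmod, Nat.card_sum, Nat.card_fin]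
  calc 2 ^ (m * (s * s + 2 * s) + 1) = 2 * ((2 ^ m) ^ (s + s) * (2 ^ m) ^ (s * s)) := by
        rw [← pow_mul, ← pow_mul, ← pow_add, ← pow_succ']
        congr 1
        ring
    _ ≤ 2 * ((2 ^ m) ^ (s + s) * (Nat.card (ZZ s (ZMod (2 ^ m))) * (2 ^ m) ^ 2)) := by gcongr
    _ = _ := by
        rw [← pow_mul 2 m 2, mul_comm m 2]
        ring

end

end Q20.SmallAut
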