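import Mathlib

/-!
Generic part: the group `Gp β` built from a biadditive map `β : E × E → Z`, extended by an
involution which inverts `E` and centralises `Z`, and a bound for its automorphism group.
-/

namespace Q20.SmallAut

/-- The group `G(β)` on triples `(s, x, z)` with
`(s,x,z)(s',x',z') = (s s', x + s x', z + z' + β(x, s x'))`. -/
@[ext] structure Gp {E Z : Type*} [AddCommGroup E] [AddCommGroup Z] (β : E →+ E →+ Z) where
  s : ℤˣ
  x : E
  z : Z

section

variable {E Z : Type*} [AddCommGroup E] [AddCommGroup Z] {β : E →+ E →+ Z}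

namespace Gp

instance : Mul (Gp β) := ⟨fun g h => ⟨g.s * h.s, g.x + g.s • h.x, g.z + h.z + β g.x (g.s • h.x)⟩⟩
instance : One (Gp β) := ⟨⟨1, 0, 0⟩⟩
instance : Inv (Gp β) := ⟨fun g => ⟨g.s, -(g.s • g.x), -g.z + β g.x g.x⟩⟩

@[simp] lemma mul_s (g h : Gp β) : (g * h).s = g.s * h.s := rfl
@[simp] lemma mul_x (g h : Gp β) : (g * h).x = g.x + g.s • h.x := rfl
@[simp] lemma mul_z (g h : Gp β) : (g * h).z = g.z + h.z + β g.x (g.s • h.x) := rfl
@[simp] lemma one_s : (1 : Gp β).s = 1 := rfl
@[simp] lemma one_x : (1 : Gp β).x = 0 := rfl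
@[simp] lemma one_z : (1 : Gp β).z = 0 := rfl
@[simp] lemma inv_s (g : Gp β) : (g⁻¹).s = g.s := rfl
@[simp] lemma inv_x (g : Gp β) : (g⁻¹).x = -(g.s • g.x) := rfl
@[simp] lemma inv_z (g : Gp β) : (g⁻¹).z = -g.z + β g.x g.x := rfl

lemma smul_cases (s : ℤˣ) : s = 1 ∨ s = -1 := Int.units_eq_one_or s

lemma neg_one_smul' (x : E) : (-1 : ℤˣ) • x = -x := by
  rw [Units.smul_def]; simp

instance : Group (Gp β) := Group.ofLeftAxioms
  (by
    intro a b c
    rcases a with ⟨s, x, z⟩
    rcases b with ⟨s', x', z'⟩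
    rcases c with ⟨s'', x'', z''⟩
    ext
    · simp [mul_assoc]
    · rcases smul_cases s with rfl | rfl <;> rcases smul_cases s' with rfl | rfl <;>
        simp [neg_one_smul'] <;> abel
    · rcases smul_cases s with rfl | rfl <;> rcases smul_cases s' with rfl | rfl <;>
        simp [neg_one_smul'] <;> abel)
  (by
    intro a
    ext <;> simp)
  (by
    intro a
    rcases a with ⟨s, x, z⟩
    ext
    · rcases smul_cases s with rfl | rfl <;> simp
    · rcases smul_cases s with rfl | rfl <;> simp [neg_one_smul']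
    · rcases smul_cases s with rfl | rfl <;> simp [neg_one_smul'])

/-- As a type, `Gp β` is a product. -/
def equivProd : Gp β ≃ ℤˣ × E × Z where
  toFun g := (g.s, g.x, g.z)
  invFun p := ⟨p.1, p.2.1, p.2.2⟩
  left_inv _ := rfl
  right_inv _ := rfl

instance [Finite E] [Finite Z] : Finite (Gp β) := Finite.of_equiv _ equivProd.symm

lemma card_eq : Nat.card (Gp β) = 2 * (Nat.card E * Nat.card Z) := by
  rw [Nat.card_congr (equivProd (β := β)), Nat.card_prod, Nat.card_prod]
  congr 1
  simp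

/-- central elements -/
def c (β : E →+ E →+ Z) (z : Z) : Gp β := ⟨1, 0, z⟩
/-- lifts of elements of `E` -/
def n (β : E →+ E →+ Z) (x : E) : Gp β := ⟨1, x, 0⟩
/-- the involution -/
def σ (β : E →+ E →+ Z) : Gp β := ⟨-1, 0, 0⟩

@[simp] lemma c_s (z : Z) : (c β z).s = 1 := rfl
@[simp] lemma c_x (z : Z) : (c β z).x = 0 := rfl
@[simp] lemma c_z (z : Z) : (c β z).z = z := rfl
@[simp] lemma n_s (x : E) : (n β x).s = 1 := rfl
@[simp] lemma n_x (x : E) : (n β x).x = x := rfl
@[simp] lemma n_z (x : E) : (n β x).z = 0 := rfl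
@[simp] lemma σ_s : (σ β).s = -1 := rfl
@[simp] lemma σ_x : (σ β).x = 0 := rfl
@[simp] lemma σ_z : (σ β).z = 0 := rfl

lemma c_comm (z : Z) (g : Gp β) : c β z * g = g * c β z := by
  ext
  · simp
  · simp
  · simp [add_comm]

lemma c_mem_center (z : Z) : c β z ∈ Subgroup.center (Gp β) := by
  rw [Subgroup.mem_center_iff]
  intro g
  exact (c_comm z g).symm

lemma c_mul_c (z w : Z) : c β z * c β w = c β (z + w) := by
  ext <;> simp

lemma n_mul_n (x y : E) : n β x * n β y = c β (β x y) * n β (x + y) := by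
  ext <;> simp

lemma c_inj {z w : Z} (h : c β z = c β w) : z = w := by
  have := congrArg Gp.z h
  simpa using this

lemma eq_c_mul_n {g : Gp β} (h : g.s = 1) : g = c β g.z * n β g.x := by
  ext
  · simp [h]
  · simp
  · simp

lemma eq_mul_σ {g : Gp β} (h : g.s = -1) : g = c β g.z * n β g.x * σ β := by
  ext
  · simp [h]
  · simp
  · simp

end Gp

end

end Q20.SmallAut
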