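import Pool.Agent.Q20.SmallAut.Conc

/-!
Matrices preserving the two alternating forms.
-/

namespace Q20.SmallAut

open Gp Matrix

section

variable {s : ℕ} {R : Type} [CommRing R]

/-- first form -/
def J1 (s : ℕ) (R : Type) [CommRing R] : Matrix (I s) (I s) R := B1 s R - (B1 s R)ᵀ
/-- second form -/
def J2 (s : ℕ) (R : Type) [CommRing R] : Matrix (I s) (I s) R := B2 s R - (B2 s R)ᵀ

lemma J1_sq : J1 s R * J1 s R = -1 := by
  have h : J1 s R = fromBlocks 0 1 (-1) 0 := by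
    unfold J1 B1
    rw [fromBlocks_transpose]
    ext i j
    rcases i with i | i <;> rcases j with j | j <;> simp
  rw [h, fromBlocks_multiply]
  ext i j
  rcases i with i | i <;> rcases j with j | j <;> simp [Matrix.one_apply]

/-- the operator `J2 J1` up to sign -/
def K (s : ℕ) (R : Type) [CommRing R] : Matrix (I s) (I s) R := fromBlocks (D s R) 0 0 (D s R)ᵀ

lemma K_eq : K s R = -(J2 s R * J1 s R) := by
  have h : J1 s R = fromBlocks 0 1 (-1) 0 := by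
    unfold J1 B1
    rw [fromBlocks_transpose]
    ext i j
    rcases i with i | i <;> rcases j with j | j <;> simp
  have h2 : J2 s R = fromBlocks 0 (D s R) (-(D s R)ᵀ) 0 := by
    unfold J2 B2
    rw [fromBlocks_transpose]
    ext i j
    rcases i with i | i <;> rcases j with j | j <;> simp
  rw [h, h2, fromBlocks_multiply, K]
  ext i j
  rcases i with i | i <;> rcases j with j | j <;> simp

lemma stab_comm {C : Matrix (I s) (I s) R} (h1 : C * J1 s R * Cᵀ = J1 s R)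
    (h2 : C * J2 s R * Cᵀ = J2 s R) : C * K s R = K s R * C := by
  have hJ : J1 s R * (-J1 s R) = 1 := by rw [mul_neg, J1_sq, neg_neg]
  have hJ' : (-J1 s R) * J1 s R = 1 := by rw [neg_mul, J1_sq, neg_neg]
  have h3 : (C * J1 s R) * (Cᵀ * (-J1 s R)) = 1 := by
    rw [← mul_assoc, h1, hJ]
  have h4 : (Cᵀ * (-J1 s R)) * (C * J1 s R) = 1 := by
    rw [mul_eq_one_comm]; exact h3
  have h5 : Cᵀ * J1 s R * C = J1 s R := by
    have h6 : (Cᵀ * (-J1 s R)) * (C * J1 s R) * (-J1 s R) = -J1 s R := by rw [h4, one_mul]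
    have h7 : (Cᵀ * (-J1 s R)) * (C * J1 s R) * (-J1 s R) = -(Cᵀ * J1 s R * C) := by
      calc (Cᵀ * (-J1 s R)) * (C * J1 s R) * (-J1 s R)
          = Cᵀ * (-J1 s R) * C * (J1 s R * (-J1 s R)) := by simp only [mul_assoc]
        _ = -(Cᵀ * J1 s R * C) := by rw [hJ, mul_one, mul_neg, neg_mul]
    rw [h7] at h6
    exact neg_injective h6
  rw [K_eq]
  calc C * -(J2 s R * J1 s R) = -(C * J2 s R * J1 s R) := by rw [mul_neg, mul_assoc]
    _ = -(C * J2 s R * (Cᵀ * J1 s R * C)) := by rw [h5]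
    _ = -((C * J2 s R * Cᵀ) * J1 s R * C) := by simp only [mul_assoc]
    _ = -(J2 s R * J1 s R) * C := by rw [h2, neg_mul]

lemma K_inl {i j : Fin s} (h : (j : ℕ) = i + 1) :
    K s R *ᵥ ee (Sum.inl j) = ee (Sum.inl i) := by
  ext a
  unfold ee
  rw [Matrix.mulVec_single_one, Matrix.col_apply]
  rcases a with a | a
  · simp only [K, fromBlocks_apply₁₁, D, Matrix.of_apply, Pi.single_apply, Sum.inl.injEq]
    by_cases ha : a = i
    · subst ha; simp [h]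
    · have : (j : ℕ) ≠ a + 1 := by
        intro h'
        exact ha (Fin.ext (by omega))
      simp [ha, this]
  · simp [K]

lemma K_inr {i j : Fin s} (h : (j : ℕ) = i + 1) :
    K s R *ᵥ ee (Sum.inr i) = ee (Sum.inr j) := by
  ext a
  unfold ee
  rw [Matrix.mulVec_single_one, Matrix.col_apply]
  rcases a with a | a
  · simp [K]
  · simp only [K, fromBlocks_apply₂₂, D, Matrix.of_apply, transpose_apply, Pi.single_apply,
      Sum.inr.injEq]
    by_cases ha : a = j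
    · subst ha; simp [h]
    · have : (a : ℕ) ≠ i + 1 := by
        intro h'
        exact ha (Fin.ext (by omega))
      simp [ha, this]

lemma eq_of_comm {C C' : Matrix (I s) (I s) R} (h : C * K s R = K s R * C)
    (h' : C' * K s R = K s R * C') {l z : Fin s} (hl : (l : ℕ) + 1 = s) (hz : (z : ℕ) = 0)
    (e1 : C *ᵥ ee (Sum.inl l) = C' *ᵥ ee (Sum.inl l))
    (e2 : C *ᵥ ee (Sum.inr z) = C' *ᵥ ee (Sum.inr z)) : C = C' := by
  have k1 : ∀ t : ℕ, ∀ j : Fin s, (j : ℕ) + t = l →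
      C *ᵥ ee (Sum.inl j) = C' *ᵥ ee (Sum.inl j) := by
    intro t
    induction t with
    | zero =>
      intro j hj
      have : j = l := Fin.ext (by omega)
      rw [this]; exact e1
    | succ t ih =>
      intro j hj
      have hlt : (j : ℕ) + 1 < s := by omega
      have h3 := ih ⟨j + 1, hlt⟩ (by simp; omega)
      have h4 : K s R *ᵥ ee (Sum.inl ⟨j + 1, hlt⟩) = ee (Sum.inl j) := K_inl rfl
      rw [← h4, mulVec_mulVec, mulVec_mulVec, h, h', ← mulVec_mulVec, ← mulVec_mulVec, h3]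
  have k2 : ∀ t : ℕ, ∀ ht : t < s,
      C *ᵥ ee (Sum.inr ⟨t, ht⟩) = C' *ᵥ ee (Sum.inr ⟨t, ht⟩) := by
    intro t
    induction t with
    | zero =>
      intro ht
      have : (⟨0, ht⟩ : Fin s) = z := Fin.ext (by simp [hz])
      rw [this]; exact e2
    | succ t ih =>
      intro ht
      have h3 := ih (by omega)
      have h4 : K s R *ᵥ ee (Sum.inr ⟨t, by omega⟩) = ee (Sum.inr ⟨t + 1, ht⟩) := K_inr rfl
      rw [← h4, mulVec_mulVec, mulVec_mulVec, h, h', ← mulVec_mulVec, ← mulVec_mulVec, h3]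
  have k3 : ∀ i : I s, C *ᵥ ee i = C' *ᵥ ee i := by
    rintro (i | i)
    · exact k1 (l - i) i (by have := i.2; omega)
    · exact k2 i i.2
  ext a b
  have := congrFun (k3 b) a
  unfold ee at this
  rwa [Matrix.mulVec_single_one, Matrix.mulVec_single_one] at this

/-- Congruence by `X` on the forms, from the membership in `U`. -/
lemma congr_of_mem_U {X B : Matrix (I s) (I s) R} (h : X * B * Xᵀ ∈ U s R) :
    ∃ c : R × R, X * (B - Bᵀ) * Xᵀ = c.1 • J1 s R + c.2 • J2 s R := by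
  obtain ⟨c0, c1, h⟩ := h
  refine ⟨(c0, c1), ?_⟩
  have h1 : X * (B - Bᵀ) * Xᵀ = X * B * Xᵀ - (X * B * Xᵀ)ᵀ := by
    rw [mul_sub, sub_mul, transpose_mul, transpose_mul, transpose_transpose, ← mul_assoc]
  rw [h1]
  rw [transpose_sub, transpose_sub] at h
  have h2 : X * B * Xᵀ - (X * B * Xᵀ)ᵀ =
      (c0 • B1 s R - (c0 • B1 s R)ᵀ) + (c1 • B2 s R - (c1 • B2 s R)ᵀ) := by
    have h3 : X * B * Xᵀ - (X * B * Xᵀ)ᵀ - ((c0 • B1 s R - (c0 • B1 s R)ᵀ) +
        (c1 • B2 s R - (c1 • B2 s R)ᵀ)) =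
      (X * B * Xᵀ - c0 • B1 s R - c1 • B2 s R) -
      ((X * B * Xᵀ)ᵀ - (c0 • B1 s R)ᵀ - (c1 • B2 s R)ᵀ) := by abel
    rw [h, sub_self] at h3
    exact sub_eq_zero.mp h3
  rw [h2, transpose_smul, transpose_smul, ← smul_sub, ← smul_sub]
  rfl

end

section

variable {s m : ℕ}

/-- The linear map on `E`. -/
noncomputable def L (hs : 3 ≤ s) (hm : 2 ≤ m) (α : MulAut (Gp (bet s (ZMod (2 ^ m))))) :
    (I s → ZMod (2 ^ m)) →ₗ[ZMod (2 ^ m)] (I s → ZMod (2 ^ m)) :=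
  AddMonoidHom.toZModLinearMap (2 ^ m)
    (AddMonoidHom.mk' (A α) (fun x y => (good hs hm).A_add α x y))

lemma L_apply (hs : 3 ≤ s) (hm : 2 ≤ m) (α : MulAut (Gp (bet s (ZMod (2 ^ m)))))
    (x : I s → ZMod (2 ^ m)) : L hs hm α x = A α x := rfl

/-- The matrix of the action on `E`. -/
noncomputable def X (hs : 3 ≤ s) (hm : 2 ≤ m) (α : MulAut (Gp (bet s (ZMod (2 ^ m))))) :
    Matrix (I s) (I s) (ZMod (2 ^ m)) := LinearMap.toMatrix' (L hs hm α)

lemma X_mulVec (hs : 3 ≤ s) (hm : 2 ≤ m) (α : MulAut (Gp (bet s (ZMod (2 ^ m)))))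
    (x : I s → ZMod (2 ^ m)) : X hs hm α *ᵥ x = A α x := by
  rw [X, LinearMap.toMatrix'_mulVec, L_apply]

lemma mat_ext {C C' : Matrix (I s) (I s) (ZMod (2 ^ m))}
    (h : ∀ x, C *ᵥ x = C' *ᵥ x) : C = C' := by
  ext a b
  have := congrFun (h (Pi.single b 1)) a
  rwa [Matrix.mulVec_single_one, Matrix.mulVec_single_one] at this

lemma X_mul (hs : 3 ≤ s) (hm : 2 ≤ m) (α α' : MulAut (Gp (bet s (ZMod (2 ^ m))))) :
    X hs hm (α * α') = X hs hm α * X hs hm α' := by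
  apply mat_ext
  intro x
  rw [← mulVec_mulVec, X_mulVec, X_mulVec, X_mulVec, (good hs hm).A_mul]

lemma X_one (hs : 3 ≤ s) (hm : 2 ≤ m) :
    X hs hm (1 : MulAut (Gp (bet s (ZMod (2 ^ m))))) = 1 := by
  apply mat_ext
  intro x
  rw [X_mulVec, one_mulVec]
  rfl

lemma Y_mk (hs : 3 ≤ s) (hm : 2 ≤ m) (α : MulAut (Gp (bet s (ZMod (2 ^ m)))))
    (M : Matrix (I s) (I s) (ZMod (2 ^ m))) :
    Y α (mk M) = mk (X hs hm α * M * (X hs hm α)ᵀ) := by
  induction M using Matrix.induction_on' with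
  | h_zero =>
    rw [mul_zero, zero_mul, mk_zero]
    have := (good hs hm).Y_add α 0 0
    rw [add_zero] at this
    exact left_eq_add.mp this
  | h_add p q hp hq =>
    rw [mk_add, (good hs hm).Y_add, hp, hq, ← mk_add, mul_add, add_mul]
  | h_std_basis i j x =>
    have h1 : Matrix.single i j x = vecMulVec (Pi.single i x) (Pi.single j 1) := by
      ext a b
      simp only [vecMulVec_apply, Matrix.single_apply, Pi.single_apply]
      by_cases ha : a = i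
      · subst ha
        by_cases hb : b = j
        · subst hb; simp
        · simp [hb, Ne.symm hb]
      · simp [ha, Ne.symm ha]
    rw [h1, ← φ_bet, (good hs hm).Y_φ, φ_bet, mul_vecMulVec, vecMulVec_mul, vecMul_transpose,
      X_mulVec, X_mulVec]

lemma X_mem (hs : 3 ≤ s) (hm : 2 ≤ m) (α : MulAut (Gp (bet s (ZMod (2 ^ m)))))
    {B : Matrix (I s) (I s) (ZMod (2 ^ m))} (hB : B ∈ U s (ZMod (2 ^ m))) :
    X hs hm α * B * (X hs hm α)ᵀ ∈ U s (ZMod (2 ^ m)) := by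
  rw [← mk_eq_zero, ← Y_mk, mk_eq_zero.mpr hB]
  have := (good hs hm).Y_add α 0 0
  rw [add_zero] at this
  exact left_eq_add.mp this

lemma exists_coeff (hs : 3 ≤ s) (hm : 2 ≤ m) (α : MulAut (Gp (bet s (ZMod (2 ^ m))))) :
    ∃ c : (ZMod (2 ^ m) × ZMod (2 ^ m)) × (ZMod (2 ^ m) × ZMod (2 ^ m)),
      X hs hm α * J1 s (ZMod (2 ^ m)) * (X hs hm α)ᵀ =
        c.1.1 • J1 s (ZMod (2 ^ m)) + c.1.2 • J2 s (ZMod (2 ^ m)) ∧
      X hs hm α * J2 s (ZMod (2 ^ m)) * (X hs hm α)ᵀ =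
        c.2.1 • J1 s (ZMod (2 ^ m)) + c.2.2 • J2 s (ZMod (2 ^ m)) := by
  have hB1 : B1 s (ZMod (2 ^ m)) ∈ U s (ZMod (2 ^ m)) := ⟨1, 0, by simp⟩
  have hB2 : B2 s (ZMod (2 ^ m)) ∈ U s (ZMod (2 ^ m)) := ⟨0, 1, by simp⟩
  obtain ⟨c, hc⟩ := congr_of_mem_U (X_mem hs hm α hB1)
  obtain ⟨d, hd⟩ := congr_of_mem_U (X_mem hs hm α hB2)
  exact ⟨(c, d), hc, hd⟩

/-- chosen coefficients -/
noncomputable def coeff (hs : 3 ≤ s) (hm : 2 ≤ m) (α : MulAut (Gp (bet s (ZMod (2 ^ m))))) :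
    (ZMod (2 ^ m) × ZMod (2 ^ m)) × (ZMod (2 ^ m) × ZMod (2 ^ m)) :=
  (exists_coeff hs hm α).choose

lemma coeff_spec (hs : 3 ≤ s) (hm : 2 ≤ m) (α : MulAut (Gp (bet s (ZMod (2 ^ m))))) :
      X hs hm α * J1 s (ZMod (2 ^ m)) * (X hs hm α)ᵀ =
        (coeff hs hm α).1.1 • J1 s (ZMod (2 ^ m)) + (coeff hs hm α).1.2 • J2 s (ZMod (2 ^ m)) ∧
      X hs hm α * J2 s (ZMod (2 ^ m)) * (X hs hm α)ᵀ =
        (coeff hs hm α).2.1 • J1 s (ZMod (2 ^ m)) + (coeff hs hm α).2.2 • J2 s (ZMod (2 ^ m)) :=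
  (exists_coeff hs hm α).choose_spec

lemma X_inv_mul (hs : 3 ≤ s) (hm : 2 ≤ m) (α α' : MulAut (Gp (bet s (ZMod (2 ^ m))))) :
    X hs hm α * X hs hm (α⁻¹ * α') = X hs hm α' := by
  rw [← X_mul, mul_inv_cancel_left]

lemma stab_of_coeff (hs : 3 ≤ s) (hm : 2 ≤ m) {α α' : MulAut (Gp (bet s (ZMod (2 ^ m))))}
    (h : coeff hs hm α' = coeff hs hm α) :
    X hs hm (α⁻¹ * α') * K s (ZMod (2 ^ m)) = K s (ZMod (2 ^ m)) * X hs hm (α⁻¹ * α') := by
  obtain ⟨h1, h2⟩ := coeff_spec hs hm α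
  obtain ⟨h1', h2'⟩ := coeff_spec hs hm α'
  rw [h] at h1' h2'
  rw [← h1] at h1'
  rw [← h2] at h2'
  have hinv : X hs hm (α⁻¹) * X hs hm α = 1 := by rw [← X_mul, inv_mul_cancel, X_one]
  have gen : ∀ J : Matrix (I s) (I s) (ZMod (2 ^ m)),
      X hs hm α' * J * (X hs hm α')ᵀ = X hs hm α * J * (X hs hm α)ᵀ →
      X hs hm (α⁻¹ * α') * J * (X hs hm (α⁻¹ * α'))ᵀ = J := by
    intro J hJ
    rw [X_mul, transpose_mul]
    calc X hs hm α⁻¹ * X hs hm α' * J * ((X hs hm α')ᵀ * (X hs hm α⁻¹)ᵀ)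
        = X hs hm α⁻¹ * (X hs hm α' * J * (X hs hm α')ᵀ) * (X hs hm α⁻¹)ᵀ := by
          simp only [mul_assoc]
      _ = X hs hm α⁻¹ * (X hs hm α * J * (X hs hm α)ᵀ) * (X hs hm α⁻¹)ᵀ := by rw [hJ]
      _ = (X hs hm α⁻¹ * X hs hm α) * J * (X hs hm α⁻¹ * X hs hm α)ᵀ := by
          rw [transpose_mul]; simp only [mul_assoc]
      _ = J := by rw [hinv]; simp
  exact stab_comm (gen _ h1') (gen _ h2')

theorem card_tup_le (hs : 3 ≤ s) (hm : 2 ≤ m) :
    Nat.card (Set.range (tup (β := bet s (ZMod (2 ^ m))) ee)) ≤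
      (2 ^ m) ^ 4 * ((2 ^ m) ^ (2 * s)) ^ 2 := by
  classical
  have hne : NeZero (2 ^ m) := inferInstance
  have hfinA : Finite (MulAut (Gp (bet s (ZMod (2 ^ m))))) := inferInstance
  have hfinT : Finite (Set.range (tup (β := bet s (ZMod (2 ^ m))) ee)) := Set.finite_range _
  let T := Set.range (tup (β := bet s (ZMod (2 ^ m))) ee)
  let ρ : T → MulAut (Gp (bet s (ZMod (2 ^ m)))) := fun t => t.2.choose
  have hρ : ∀ t : T, tup ee (ρ t) = t := fun t => t.2.choose_spec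
  let l : Fin s := ⟨s - 1, by omega⟩
  let z : Fin s := ⟨0, by omega⟩
  let f : T → (ZMod (2 ^ m) × ZMod (2 ^ m)) × (ZMod (2 ^ m) × ZMod (2 ^ m)) :=
    fun t => coeff hs hm (ρ t)
  let g : T → T → (I s → ZMod (2 ^ m)) × (I s → ZMod (2 ^ m)) := fun t0 t =>
    (X hs hm ((ρ t0)⁻¹ * ρ t) *ᵥ ee (Sum.inl l), X hs hm ((ρ t0)⁻¹ * ρ t) *ᵥ ee (Sum.inr z))
  have key := card_le_mul f g ?_
  · refine key.trans ?_
    have h1 : Nat.card (Set.range f) ≤ (2 ^ m) ^ 4 := by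
      calc Nat.card (Set.range f) ≤
          Nat.card ((ZMod (2 ^ m) × ZMod (2 ^ m)) × (ZMod (2 ^ m) × ZMod (2 ^ m))) :=
            Nat.card_le_card_of_injective _ Subtype.val_injective
        _ = (2 ^ m) ^ 4 := by
          rw [Nat.card_prod, Nat.card_prod, Nat.card_zmod]; ring
    have h2 : Nat.card ((I s → ZMod (2 ^ m)) × (I s → ZMod (2 ^ m))) =
        ((2 ^ m) ^ (2 * s)) ^ 2 := by
      rw [Nat.card_prod, Nat.card_fun, Nat.card_zmod, Nat.card_sum, Nat.card_fin, two_mul, sq]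
    rw [h2]
    exact Nat.mul_le_mul_right _ h1
  · intro t0 t t' h1 h2 h3
    have c1 := stab_of_coeff hs hm h1
    have c2 := stab_of_coeff hs hm h2
    have h4 : X hs hm ((ρ t0)⁻¹ * ρ t) = X hs hm ((ρ t0)⁻¹ * ρ t') :=
      eq_of_comm c1 c2 (l := l) (z := z) (by simp [l]; omega) (by simp [z])
        (congrArg Prod.fst h3) (congrArg Prod.snd h3)
    have h5 : X hs hm (ρ t) = X hs hm (ρ t') := by
      rw [← X_inv_mul hs hm (ρ t0) (ρ t), ← X_inv_mul hs hm (ρ t0) (ρ t'), h4]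
    apply Subtype.ext
    rw [← hρ t, ← hρ t']
    funext i
    show A (ρ t) (ee i) = A (ρ t') (ee i)
    rw [← X_mulVec hs hm, ← X_mulVec hs hm, h5]

end

end Q20.SmallAut
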